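import Pool.Agent.TH876.MN.Main

/-!
# The Lang–Vojta conjecture for the moduli spaces of points of the line, with varying primes

`K` is a number field. The moduli scheme `U` of `m + 3` different points of the projective line is
the scheme of the `x = (x 0, ..., x (m - 1))` with `x i`, `1 - x i` and `x i - x j` (`i ≠ j`)
invertible (the points being `∞, 0, 1, x 0, ..., x (m - 1)`); it has dimension `m`. For a finite
set `b` of primes of `K`, `U (𝓞_K [1/b])` is the set of the `x` over `K` for which these elements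
are units at every prime outside `b`.
-/

set_option autoImplicit false

namespace Pool.Agent.Results.MP_26d9ad_nt.ConfigurationsVaryingPrimes

open NumberField IsDedekindDomain

variable {K : Type} [Field K] [NumberField K]

/-- `x` is a point of the moduli scheme over the ring of the elements of `K` which are integral
outside `b` -/
def IsSection {m : ℕ} (b : Finset (HeightOneSpectrum (𝓞 K))) (x : Fin m → K) : Prop :=
  ((∀ i, x i ≠ 0 ∧ x i ≠ 1) ∧ ∀ i j, i ≠ j → x i ≠ x j) ∧
  ∀ v, v ∉ b → (∀ i, v.valuation K (x i) = 1 ∧ v.valuation K (1 - x i) = 1) ∧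
    ∀ i j, i ≠ j → v.valuation K (x i - x j) = 1

/-- the points of height at most `H` over `𝓞_K [1/b]` for some finite set `b` of primes with
product of the norms at most `X`, for all `b` together -/
def Sections (K : Type) [Field K] [NumberField K] (m : ℕ) (X H : ℝ) : Set (Fin m → K) :=
  {x | (∃ b : Finset (HeightOneSpectrum (𝓞 K)),
      (∏ v ∈ b, (Ideal.absNorm v.asIdeal : ℝ)) ≤ X ∧ IsSection b x) ∧
    ∀ i, Height.logHeight₁ (x i) ≤ H}

/-- Let `m ≥ 2` and `ε > 0`. For all `X, H ≥ 1` there are at most `C H X ^ (7 / 10 + ε)` points of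
height at most `H` of the moduli scheme of `m + 3` different points of the line which are integral
outside a set of primes with product of the norms at most `X`. -/
theorem result (K : Type) [Field K] [NumberField K] (m : ℕ) (hm : 2 ≤ m) (ε : ℝ) (hε : 0 < ε) :
    ∃ C : ℝ, ∀ X H : ℝ, 1 ≤ X → 1 ≤ H → (Sections K m X H).Finite ∧
      ((Sections K m X H).ncard : ℝ) ≤ C * H * X ^ (7 / 10 + ε) := by
  obtain ⟨C, hC⟩ := Pool.Agent.TH876.MN.finM K m (Pool.Agent.TH876.MN.count_many K m hm) ε hε
  refine ⟨C, fun X H hX hH => ?_⟩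
  have h := hC X H hX hH
  have e : Sections K m X H = {x : Fin m → K | (∀ i, x i ≠ 0 ∧ x i ≠ 1) ∧
      (∀ i j, i ≠ j → x i ≠ x j) ∧
        (∃ b : Finset (HeightOneSpectrum (𝓞 K)),
          (∏ v ∈ b, (Ideal.absNorm v.asIdeal : ℝ)) ≤ X ∧ ∀ v, v ∉ b →
            (∀ i, v.valuation K (x i) = 1 ∧ v.valuation K (1 - x i) = 1) ∧
            ∀ i j, i ≠ j → v.valuation K (x i - x j) = 1) ∧
        ∀ i, Height.logHeight₁ (x i) ≤ H} := by
    ext x
    constructor
    · rintro ⟨⟨b, hb, h1, h2⟩, h3⟩
      exact ⟨h1.1, h1.2, ⟨b, hb, h2⟩, h3⟩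
    · rintro ⟨h1, h2, ⟨b, hb, h3⟩, h4⟩
      exact ⟨⟨b, hb, ⟨h1, h2⟩, h3⟩, h4⟩
  rw [e]
  exact h

end Pool.Agent.Results.MP_26d9ad_nt.ConfigurationsVaryingPrimes
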