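import Pool.Agent.TH145.MG.FinP

/-!
MP_26d9ad_nt, Q1: integral points on the complements of Fermat-Waring divisors with algebraically
independent coefficients, in arbitrary projective varieties.

Let `K` be an algebraically closed field of characteristic `0`, and let `k` be a field contained in
`K`. Let `A_1, ..., A_q` be linear forms in `n + 1` variables, whose `q (n + 1)` coefficients are
algebraically independent over `k`.
-/

set_option autoImplicit false

namespace Pool.Agent.Results.MP_26d9ad_nt.GenericWaringComplements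

open Pool.Agent.W602.GT Pool.Agent.TH145.MW Pool.Agent.TH145.MG

theorem result {k K : Type} [Field k] [Field K] [IsAlgClosed K] [CharZero K] [Algebra k K]
    {q n : ℕ} (A : Fin q → Fin (n + 1) → K)
    (hA : AlgebraicIndependent k (fun p : Fin q × Fin (n + 1) => A p.1 p.2))
    -- a projective variety `V` over `k`, of dimension at most `d`
    (V : Set (MvPolynomial (Fin (n + 1)) k)) (hVh : ∀ f ∈ V, ∃ m, f.IsHomogeneous m) (d : ℕ)
    (hV : DimLE k V d)
    -- coefficients, in `k` or arbitrary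
    (c : Fin q → K) (hc : ∀ j, c j ≠ 0)
    (hq : ((∀ j, c j ∈ Set.range (algebraMap k K)) ∧ 2 * d + 2 ≤ q) ∨ 4 * d + 2 ≤ q)
    (e : ℕ) (he0 : 0 < e) (he : q ^ 2 ≤ e)
    -- the complement in `V` of the hypersurface `∑ c_j A_j ^ e = 0`, and its closed subvarieties
    {ι : Type} (F : ι → MvPolynomial (Fin (n + 1)) K)
    (hFV : ∀ f ∈ V, ∃ i, F i = MvPolynomial.map (algebraMap k K) f) :
    (∀ T : Finset K, (IntegralPoints F (fun _ : Fin 1 => wf A c e)
      (Subring.closure (T : Set K))).Finite) ∧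
    ((((∀ j, c j ∈ Set.range (algebraMap k K)) ∧ 2 * n + 2 ≤ q) ∨ 4 * n + 2 ≤ q) →
      n * ((q + 2) * (q * (q - 1) / 2)) ≤ e →
        LangVojta F (fun _ : Fin 1 => wf A c e)) := by
  classical
  have ht : terms c ≤ q := by
    rw [terms_eq]
    exact (Finset.card_le_univ _).trans (by rw [Fintype.card_fin])
  have hEn : ∀ m, (((∀ j, c j ∈ Set.range (algebraMap k K)) ∧ 2 * m + 2 ≤ q) ∨
      4 * m + 2 ≤ q) → Enough k m 1 c := by
    rintro m (⟨h1, h2⟩ | h2)
    · exact ⟨hc, Or.inl ⟨h1, by omega⟩⟩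
    · exact ⟨hc, Or.inr (by omega)⟩
  have h1 : ∀ T : Finset K, (IntegralPoints F (fun _ : Fin 1 => wf A c e)
      (Subring.closure (T : Set K))).Finite := by
    intro T
    refine (generic_finite A hA V hVh hV (fun a : Fin 0 => a.elim0) (fun a : Fin 0 => a.elim0)
      (fun _ : Fin 1 => c) (fun _ => e) (fun a => a.elim0)
      (fun _ => ⟨he0, (Nat.pow_le_pow_left ht 2).trans he⟩) (Or.inr ⟨0, hEn d hq⟩) T).subset ?_
    rintro p ⟨x, hx, rfl, hxR, hF, hQ⟩
    refine ⟨integralPoints_sub A (fun a : Fin 0 => a.elim0) (fun a : Fin 0 => a.elim0)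
      (fun _ : Fin 1 => c) (fun _ => e) _ ⟨x, hx, rfl, hxR, fun a => a.elim0, hQ⟩,
      x, hx, rfl, fun f hf => ?_⟩
    obtain ⟨i, hi⟩ := hFV f hf
    have h2 := hF i
    rwa [hi, MvPolynomial.eval_map, ← MvPolynomial.aeval_def] at h2
  refine ⟨h1, fun hq' he' => ⟨?_, h1⟩⟩
  intro L _ _ w y hw hy
  have h2 := (generic_langVojta A hA (fun a : Fin 0 => a.elim0) (fun a : Fin 0 => a.elim0)
      (fun _ : Fin 1 => c) (fun _ => e) (fun a => a.elim0)
      (fun _ => ⟨he0, (Nat.pow_le_pow_left ht 2).trans he⟩) (Or.inr ⟨0, hEn n hq'⟩)).2.2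
      (fun a => a.elim0) (fun _ => he')
  exact h2.1 L w y hw ⟨hy.ne, fun a => a.elim0, hy.off, hy.gen, hy.dim⟩

end Pool.Agent.Results.MP_26d9ad_nt.GenericWaringComplements
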