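import Mathlib
import Pool.Agent.TH143.DE.Sub

/-!
MP_26d9ad_nt, Q1: sequences of points, e.g. of integral points, whose coordinates satisfy linear
recurrences with varying coefficients, on varieties of log general type.
-/

set_option autoImplicit false

namespace Pool.Agent.Results.MP_26d9ad_nt.HolonomicIntegralPoints

open MvPolynomial Filter
open Pool.Agent.W602.GT Pool.Agent.TH143.GT Pool.Agent.TH143.DE Pool.Agent.W603.GR
  Pool.Agent.W603.PV

/-- Let `U` be the variety in projective space with the homogeneous ideal `p` and the boundary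
`Q = 0`, and let `t 0, t 1, ...` be an infinite orbit of the polynomial map `ρ`, e.g. `t m = m`. Let
`x 0, x 1, ...` be points of `U`, in homogeneous coordinates, such that each coordinate satisfies a
nontrivial linear recurrence whose coefficients are polynomials in `t m`, and such that the numbers
`Q (x m)` satisfy a recurrence of order one of this kind. For example, `U` is a closed subvariety of
affine space, the coordinates are `1` and the affine coordinates, and `Q` is the first
coordinate.

(1) If `U` is of log general type and of dimension at least two then the points `x m` are not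
Zariski-dense in `U`.

(2) If the closed subvarieties of positive dimension of `U` which are not contained in `G = 0` are
of log general type, then the points `x m` off `G = 0` are contained in an algebraic subset of
dimension at most one: any three forms of the same degree satisfy a nontrivial homogeneous relation
on these points. -/
theorem result {n : ℕ} (p : Ideal (MvPolynomial (Fin (n + 1)) ℂ)) (hp : IsHomog p)
    (Q : MvPolynomial (Fin (n + 1)) ℂ) (q : ℕ) (hQ : Q.IsHomogeneous q)
    (t : ℕ → ℂ) (ρ : Polynomial ℂ) (ht : Function.Injective t)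
    (hρ : ∀ m, t (m + 1) = ρ.eval (t m)) (x : ℕ → Fin (n + 1) → ℂ)
    (hX : ∀ m, (∀ H ∈ p, eval (x m) H = 0) ∧ eval (x m) Q ≠ 0)
    (hx : ∀ j, RecAlong t (fun m => x m j))
    (hQx : ∃ a b : Polynomial ℂ, a ≠ 0 ∧
      ∀ m, a.eval (t m) * eval (x (m + 1)) Q = b.eval (t m) * eval (x m) Q) :
    (∀ (K : Type) [Field K] [Algebra ℂ K] (w : ℕ) (y : Fin (n + 1) → K), FunField p Q K w y →
      2 ≤ w → LogGeneralType ℂ K w (OffQ Q q y) → ¬ SeqDense p x) ∧
    (∀ G : MvPolynomial (Fin (n + 1)) ℂ, IsForm G → SubLogGT p Q q G →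
      ∀ (e : ℕ) (a : Fin 3 → MvPolynomial (Fin (n + 1)) ℂ), (∀ k, (a k).IsHomogeneous e) →
        ∃ P : MvPolynomial (Fin 3) ℂ, IsForm P ∧ P ≠ 0 ∧
          ∀ m, eval (x m) G = 0 ∨ eval (fun k => eval (x m) (a k)) P = 0) := by
  classical
  have hall : ∀ᶠ m in atTop, ∀ H ∈ p, eval (x m) H = 0 :=
    Eventually.of_forall fun m => (hX m).1
  obtain ⟨α, β, hα, hab⟩ := hQx
  have hhyp : Hyper (ratB t ht) Q x := by
    refine ⟨Eventually.of_forall fun m => (hX m).2, fun m => β.eval (t m) / α.eval (t m),
      ⟨β, α, hα, Eventually.of_forall fun m => rfl⟩, ?_⟩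
    filter_upwards [ev_ne ht hα] with m hm
    field_simp
    linear_combination hab m
  refine ⟨?_, ?_⟩
  · intro K _ _ w y hy hw hgt hdense
    obtain ⟨r, hr⟩ := main_seq (ratB_field ht ρ hρ) (ratB_tr ht) hQ hy (by omega)
      (fun j => (hx j).linRec ht) hall hhyp (hdense.tail hy (by omega))
    exact hr (flat_gt hy hQ hgt r)
  · intro G hG h e a ha
    obtain ⟨P, ⟨D, hP⟩, hP0, hz⟩ := main_curve (ratB_field ht ρ hρ) (ratB_tr ht) hp hQ hG h
      (fun j => (hx j).linRec ht) hall hhyp a ha
    obtain ⟨m0, hm0⟩ := eventually_atTop.1 hz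
    -- linear forms through the first points
    have hline : ∀ v : Fin 3 → ℂ, ∃ ℓ : MvPolynomial (Fin 3) ℂ, ℓ.IsHomogeneous 1 ∧ ℓ ≠ 0 ∧
        eval v ℓ = 0 := by
      intro v
      by_cases h0 : v 0 = 0
      · exact ⟨X 0, isHomogeneous_X _ _, X_ne_zero 0, by rw [eval_X, h0]⟩
      · refine ⟨C (v 0) * X 1 - C (v 1) * X 0, ?_, ?_, ?_⟩
        · have h2 := (isHomogeneous_C (Fin 3) (v 0)).mul (isHomogeneous_X ℂ 1)
          have h3 := (isHomogeneous_C (Fin 3) (v 1)).mul (isHomogeneous_X ℂ 0)
          rw [zero_add] at h2 h3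
          exact h2.sub h3
        · intro h1
          have h2 := congrArg (eval ![(0 : ℂ), 1, 0]) h1
          rw [map_sub, map_mul, map_mul, eval_C, eval_C, eval_X, eval_X, map_zero] at h2
          apply h0
          simpa using h2
        · rw [map_sub, map_mul, map_mul, eval_C, eval_C, eval_X, eval_X]
          ring
    choose ℓ hℓ hℓ0 hℓv using fun m => hline (fun k => eval (x m) (a k))
    refine ⟨P * ∏ m ∈ Finset.range m0, ℓ m, ⟨_, hP.mul (IsHomogeneous.prod _ _ _
      fun m _ => hℓ m)⟩, mul_ne_zero hP0 (Finset.prod_ne_zero_iff.2 fun m _ => hℓ0 m), fun m => ?_⟩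
    by_cases hm : m0 ≤ m
    · rcases mul_eq_zero.1 (hm0 m hm) with h1 | h1
      · exact Or.inl h1
      · right
        rw [map_mul, h1, zero_mul]
    · right
      rw [map_mul, map_prod, Finset.prod_eq_zero (Finset.mem_range.2 (not_le.1 hm)) (hℓv m),
        mul_zero]

end Pool.Agent.Results.MP_26d9ad_nt.HolonomicIntegralPoints
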